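import Pool.Agent.ZES.StmtsK

/-!
# Squad ZES, row QMX: square root of the inverse
-/

set_option autoImplicit false

namespace Pool.Agent.ZES.H70

open scoped BigOperators InnerProductSpace MatrixOrder
open Pool.Agent.ZES

/-- **Row QMX** -/
theorem qmx : QmxStmt := by
  intro g Y hY
  have hYi : (Y⁻¹).PosDef := hY.inv
  obtain ⟨Q, hQ⟩ := CStarAlgebra.nonneg_iff_eq_star_mul_self.mp hYi.posSemidef.nonneg
  have hQT : Y⁻¹ = Q.transpose * Q := by
    rw [hQ, Matrix.star_eq_conjTranspose, Matrix.conjTranspose_eq_transpose_of_trivial]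
  have hdet : Q.det ≠ 0 := by
    intro h0
    have h1 : (Y⁻¹).det = 0 := by rw [hQT, Matrix.det_mul, h0, mul_zero]
    exact hYi.det_pos.ne' h1
  have hu : IsUnit Q.det := isUnit_iff_ne_zero.mpr hdet
  let A : Matrix (Fin g) (Fin g) ℂ := Q.map (algebraMap ℝ ℂ)
  let B : Matrix (Fin g) (Fin g) ℂ := (Q⁻¹).map (algebraMap ℝ ℂ)
  have hAB : A * B = 1 := by
    show Q.map (algebraMap ℝ ℂ) * (Q⁻¹).map (algebraMap ℝ ℂ) = 1
    rw [← Matrix.map_mul, Matrix.mul_nonsing_inv _ hu]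
    exact Matrix.map_one _ (map_zero _) (map_one _)
  have hBA : B * A = 1 := by
    show (Q⁻¹).map (algebraMap ℝ ℂ) * Q.map (algebraMap ℝ ℂ) = 1
    rw [← Matrix.map_mul, Matrix.nonsing_inv_mul _ hu]
    exact Matrix.map_one _ (map_zero _) (map_one _)
  let e : (Fin g → ℂ) ≃ₗ[ℂ] (Fin g → ℂ) := Matrix.toLin'OfInv hBA hAB
  let Λ : (Fin g → ℂ) ≃L[ℂ] EuclideanSpace ℂ (Fin g) :=
    (e.trans (WithLp.linearEquiv 2 ℂ (Fin g → ℂ)).symm).toContinuousLinearEquiv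
  refine ⟨Λ, fun x y => ?_⟩
  have hΛ : ∀ (z : Fin g → ℂ) (r : Fin g), (Λ z) r = ∑ i, (Q r i : ℂ) * z i := by
    intro z r
    show (e z) r = ∑ i, (Q r i : ℂ) * z i
    show (Matrix.toLin' A z) r = ∑ i, (Q r i : ℂ) * z i
    rw [Matrix.toLin'_apply]
    rfl
  rw [PiLp.inner_apply]
  simp only [hΛ, RCLike.inner_apply]
  have hent : ∀ i j, ((Y⁻¹ i j : ℝ) : ℂ) = ∑ r, (Q r i : ℂ) * (Q r j : ℂ) := by
    intro i j
    rw [hQT, Matrix.mul_apply, Complex.ofReal_sum]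
    refine Finset.sum_congr rfl fun r _ => ?_
    rw [Matrix.transpose_apply, Complex.ofReal_mul]
  simp only [hent]
  simp only [map_sum, map_mul, Complex.conj_ofReal]
  simp only [Finset.sum_mul, Finset.mul_sum]
  have h1 : ∀ i : Fin g, (∑ j : Fin g, ∑ r : Fin g,
      (starRingEnd ℂ) (x i) * ((Q r i : ℂ) * (Q r j : ℂ)) * y j)
      = ∑ r : Fin g, ∑ j : Fin g,
        (starRingEnd ℂ) (x i) * ((Q r i : ℂ) * (Q r j : ℂ)) * y j := fun i => Finset.sum_comm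
  rw [Finset.sum_congr rfl fun i _ => h1 i, Finset.sum_comm]
  refine Finset.sum_congr rfl fun r _ => Finset.sum_congr rfl fun i _ =>
    Finset.sum_congr rfl fun j _ => ?_
  ring

end Pool.Agent.ZES.H70
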